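import Pool.Agent.W2helper21.RF.Stm

/-!
# Project RF, piece RED
-/

set_option autoImplicit false

namespace Pool.Agent.W4helper65.RF

open Matrix MvPolynomial Pool.Agent.W2helper94.PIT Pool.Agent.W2helper21.RF

variable {F : Type*} [Field F]

theorem p_red : P_RED F := by
  intro D
  induction D with
  | leaf p =>
    intro h
    exact ⟨Fm.leaf p, rfl, h, Finset.Subset.refl _, fun u => le_rfl, fun b h => h, le_rfl⟩
  | add f g hf hg =>
    intro h
    have h' : f.poly + g.poly ≠ 0 := h
    by_cases hf0 : f.poly = 0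
    · have hg0 : g.poly ≠ 0 := by
        intro hg0
        rw [hf0, hg0, add_zero] at h'
        exact h' rfl
      obtain ⟨D', h1, h2, h3, h4, h5, h6⟩ := hg hg0
      refine ⟨D', ?_, h2, h3.trans Finset.subset_union_right,
        fun u => (h4 u).trans (Nat.le_add_left _ _), fun b hb => h5 b hb.2,
        h6.trans (Nat.le_add_left _ _)⟩
      rw [h1]
      simp only [Fm.poly, hf0, zero_add]
    · by_cases hg0 : g.poly = 0
      · obtain ⟨D', h1, h2, h3, h4, h5, h6⟩ := hf hf0
        refine ⟨D', ?_, h2, h3.trans Finset.subset_union_left,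
          fun u => (h4 u).trans (Nat.le_add_right _ _), fun b hb => h5 b hb.1,
          h6.trans (Nat.le_add_right _ _)⟩
        rw [h1]
        simp only [Fm.poly, hg0, add_zero]
      · obtain ⟨D1, h1, h2, h3, h4, h5, h6⟩ := hf hf0
        obtain ⟨D2, k1, k2, k3, k4, k5, k6⟩ := hg hg0
        refine ⟨Fm.add D1 D2, ?_, ⟨h2, k2, ?_⟩, Finset.union_subset_union h3 k3,
          fun u => Nat.add_le_add (h4 u) (k4 u), fun b hb => ⟨h5 b hb.1, k5 b hb.2⟩,
          Nat.add_le_add h6 k6⟩
        · simp only [Fm.poly, h1, k1]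
        · rw [h1, k1]
          exact h'
  | mul f g hf hg =>
    intro h
    have h' : f.poly * g.poly ≠ 0 := h
    obtain ⟨D1, h1, h2, h3, h4, h5, h6⟩ := hf (left_ne_zero_of_mul h')
    obtain ⟨D2, k1, k2, k3, k4, k5, k6⟩ := hg (right_ne_zero_of_mul h')
    refine ⟨Fm.mul D1 D2, ?_, ⟨h2, k2⟩, Finset.union_subset_union h3 k3,
      fun u => Nat.add_le_add (h4 u) (k4 u), fun b hb => ⟨h5 b hb.1, k5 b hb.2⟩,
      Nat.add_le_add h6 k6⟩
    simp only [Fm.poly, h1, k1]

end Pool.Agent.W4helper65.RF
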